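import Pool.Agent.Helper25.LS.Defs

/-! LS: QU, passage to quotients. -/

set_option autoImplicit false

open Filter Topology Module

noncomputable section

namespace Pool.Agent.Helper79.LS

open Pool.Agent.Helper25.LS

/-- a finite net of the ball of radius `2` with cardinality bounded by the dimension -/
theorem sepnet (F : Type) [NormedAddCommGroup F] [NormedSpace ℝ F] [FiniteDimensional ℝ F] :
    ∃ s : Finset F, s.card ≤ 5 ^ finrank ℝ F ∧ ∀ f : F, ‖f‖ ≤ 2 → ∃ c ∈ s, ‖f - c‖ ≤ 1 := by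
  classical
  by_contra hcon
  push Not at hcon
  have key : ∀ k : ℕ, ∃ s : Finset F, s.card = k ∧ (∀ c ∈ s, ‖c‖ ≤ 2) ∧
      ∀ c ∈ s, ∀ d ∈ s, c ≠ d → 1 ≤ ‖c - d‖ := by
    intro k
    induction k with
    | zero => exact ⟨∅, by simp, by simp, by simp⟩
    | succ k ih =>
      obtain ⟨s, hs, h2, h3⟩ := ih
      obtain ⟨f, hf, hfs⟩ := hcon s (Besicovitch.card_le_of_separated s h2 h3)
      have hfn : f ∉ s := by
        intro h
        have := hfs f h
        rw [sub_self, norm_zero] at this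
        linarith
      refine ⟨insert f s, ?_, ?_, ?_⟩
      · rw [Finset.card_insert_of_notMem hfn, hs]
      · intro c hc
        rcases Finset.mem_insert.1 hc with rfl | hc
        · exact hf
        · exact h2 c hc
      · intro c hc d hd hcd
        rcases Finset.mem_insert.1 hc with rfl | hc'
        · rcases Finset.mem_insert.1 hd with rfl | hd'
          · exact absurd rfl hcd
          · exact (hfs d hd').le
        · rcases Finset.mem_insert.1 hd with rfl | hd'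
          · rw [norm_sub_rev]
            exact (hfs c hc').le
          · exact h3 c hc' d hd' hcd
  obtain ⟨s, hs, h2, h3⟩ := key (5 ^ finrank ℝ F + 1)
  have := Besicovitch.card_le_of_separated s h2 h3
  omega

/-- approximate lifting gives lifting with constant `2` -/
theorem lift2 (G F : Type) [NormedAddCommGroup G] [NormedSpace ℂ G] [FiniteDimensional ℂ G]
    [NormedAddCommGroup F] [NormedSpace ℂ F] [FiniteDimensional ℂ F] (q : G →ₗ[ℂ] F)
    (h : ∀ f : F, ∃ g : G, ‖g‖ ≤ 11 / 8 * ‖f‖ ∧ ‖f - q g‖ ≤ 1 / 4 * ‖f‖) :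
    ∀ f : F, ∃ g : G, q g = f ∧ ‖g‖ ≤ 2 * ‖f‖ := by
  have hsurj : LinearMap.range q = ⊤ := by
    by_contra hne
    have hex : ∃ x : F, x ∉ LinearMap.range q := by
      by_contra h1
      push Not at h1
      exact hne (eq_top_iff.2 fun x _ => h1 x)
    obtain ⟨x₀, hx₀, hx1⟩ := riesz_lemma (𝕜 := ℂ) (F := LinearMap.range q)
      (Submodule.closed_of_finiteDimensional _) hex (r := 1 / 2) (by norm_num)
    obtain ⟨g, _, hg2⟩ := h x₀
    have h3 := hx1 (q g) ⟨g, rfl⟩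
    have h4 : ‖x₀‖ ≤ 0 := by linarith [norm_nonneg x₀]
    have h5 : x₀ = 0 := norm_le_zero_iff.1 h4
    exact hx₀ (h5 ▸ Submodule.zero_mem _)
  obtain ⟨s, hs⟩ := q.exists_rightInverse_of_surjective hsurj
  have hs' : ∀ f, q (s f) = f := fun f => by
    have := LinearMap.congr_fun hs f
    simpa using this
  set M : ℝ := ‖LinearMap.toContinuousLinearMap s‖ with hM
  have hM0 : 0 ≤ M := norm_nonneg _
  have key : ∀ k : ℕ, ∀ f : F, ∃ g : G, q g = f ∧ ‖g‖ ≤ (11 / 6 + (1 / 4) ^ k * M) * ‖f‖ := by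
    intro k
    induction k with
    | zero =>
      intro f
      refine ⟨s f, hs' f, ?_⟩
      have h1 : ‖s f‖ ≤ M * ‖f‖ := (LinearMap.toContinuousLinearMap s).le_opNorm f
      nlinarith [norm_nonneg f]
    | succ k ih =>
      intro f
      obtain ⟨g, hg1, hg2⟩ := h f
      obtain ⟨g', hg3, hg4⟩ := ih (f - q g)
      refine ⟨g + g', ?_, ?_⟩
      · rw [map_add, hg3]; abel
      · have h5 : 0 ≤ 11 / 6 + (1 / 4 : ℝ) ^ k * M := by positivity
        calc ‖g + g'‖ ≤ ‖g‖ + ‖g'‖ := norm_add_le _ _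
          _ ≤ 11 / 8 * ‖f‖ + (11 / 6 + (1 / 4) ^ k * M) * (1 / 4 * ‖f‖) := by
              gcongr
              exact hg4.trans (mul_le_mul_of_nonneg_left hg2 h5)
          _ = (11 / 6 + (1 / 4) ^ (k + 1) * M) * ‖f‖ := by ring
  obtain ⟨k, hk⟩ := exists_pow_lt_of_lt_one (show (0 : ℝ) < 1 / (6 * (M + 1)) by positivity)
    (show (1 / 4 : ℝ) < 1 by norm_num)
  intro f
  obtain ⟨g, hg1, hg2⟩ := key k f
  refine ⟨g, hg1, hg2.trans ?_⟩
  have h6 : (1 / 4 : ℝ) ^ k * M ≤ 1 / 6 := by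
    have h7 : (1 / 4 : ℝ) ^ k * (M + 1) < 1 / 6 := by
      calc (1 / 4 : ℝ) ^ k * (M + 1) < 1 / (6 * (M + 1)) * (M + 1) := by
            apply mul_lt_mul_of_pos_right hk; linarith
        _ = 1 / 6 := by field_simp
    have h8 : 0 ≤ (1 / 4 : ℝ) ^ k := by positivity
    nlinarith
  nlinarith [norm_nonneg f]

/-- the quotient norm of a Hilbertian norm -/
theorem hilb (G F : Type) [NormedAddCommGroup G] [NormedSpace ℂ G]
    [NormedAddCommGroup F] [NormedSpace ℂ F] (q : G →ₗ[ℂ] F) (hq : ∀ g, ‖q g‖ ≤ ‖g‖)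
    (h : ∀ f : F, ∃ g : G, q g = f ∧ ‖g‖ ≤ 2 * ‖f‖) (m : ℕ)
    (u : G ≃L[ℂ] EuclideanSpace ℂ (Fin m)) (C : ℝ)
    (hu : ‖(u : G →L[ℂ] EuclideanSpace ℂ (Fin m))‖ *
      ‖(u.symm : EuclideanSpace ℂ (Fin m) →L[ℂ] G)‖ ≤ C) :
    ∃ N : F → ℝ, (∀ y, ‖y‖ ≤ N y ∧ N y ≤ 2 * C * ‖y‖) ∧ (∀ y z, N (y + z) ≤ N y + N z) ∧
      (∀ (a : ℂ) y, N (a • y) = ‖a‖ * N y) ∧
      (∀ y z, N (y + z) * N (y + z) + N (y - z) * N (y - z) = 2 * (N y * N y + N z * N z)) := by
  set a : ℝ := ‖(u.symm : EuclideanSpace ℂ (Fin m) →L[ℂ] G)‖ with ha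
  have ha0 : 0 ≤ a := norm_nonneg _
  let Q : EuclideanSpace ℂ (Fin m) →ₗ[ℂ] F := q ∘ₗ (u.symm.toLinearEquiv : _ →ₗ[ℂ] G)
  have hQ : ∀ e, Q e = q (u.symm e) := fun e => rfl
  have hQs : LinearMap.range Q = ⊤ := by
    rw [eq_top_iff]
    intro f _
    obtain ⟨g, hg, _⟩ := h f
    exact ⟨u g, by rw [hQ, ContinuousLinearEquiv.symm_apply_apply, hg]⟩
  obtain ⟨s, hs⟩ := Q.exists_rightInverse_of_surjective hQs
  have hs' : ∀ f, Q (s f) = f := fun f => by
    have := LinearMap.congr_fun hs f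
    simpa using this
  let K : Submodule ℂ (EuclideanSpace ℂ (Fin m)) := LinearMap.ker Q
  let R : F →ₗ[ℂ] EuclideanSpace ℂ (Fin m) := (Kᗮ.starProjection : _ →ₗ[ℂ] _) ∘ₗ s
  have hR : ∀ f, R f = Kᗮ.starProjection (s f) := fun f => rfl
  have hRe : ∀ f e, Q e = f → R f = Kᗮ.starProjection e := by
    intro f e he
    rw [hR, Submodule.starProjection_orthogonal]
    simp only [sub_apply, ContinuousLinearMap.id_apply]
    have h1 : s f - e ∈ K := by
      rw [LinearMap.mem_ker, map_sub, hs', he, sub_self]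
    have h2 := (Submodule.starProjection_eq_self_iff (K := K)).2 h1
    rw [map_sub] at h2
    rw [sub_eq_sub_iff_add_eq_add]
    have h3 : K.starProjection (s f) = s f - e + K.starProjection e := by
      rw [← h2]; abel
    rw [h3]; abel
  have hQR : ∀ f, Q (R f) = f := by
    intro f
    rw [hR, Submodule.starProjection_orthogonal]
    simp only [sub_apply, ContinuousLinearMap.id_apply, map_sub, hs']
    have h1 : Q (K.starProjection (s f)) = 0 :=
      LinearMap.mem_ker.1 (Submodule.starProjection_apply_mem K (s f))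
    rw [h1, sub_zero]
  refine ⟨fun f => a * ‖R f‖, ?_, ?_, ?_, ?_⟩
  · intro f
    constructor
    · have h1 : ‖f‖ ≤ ‖u.symm (R f)‖ := by
        have := hq (u.symm (R f))
        rwa [← hQ, hQR] at this
      exact h1.trans ((u.symm : EuclideanSpace ℂ (Fin m) →L[ℂ] G).le_opNorm _)
    · obtain ⟨g, hg1, hg2⟩ := h f
      have h1 : R f = Kᗮ.starProjection (u g) := by
        apply hRe
        rw [hQ, ContinuousLinearEquiv.symm_apply_apply, hg1]
      have h2 : ‖R f‖ ≤ ‖u g‖ := by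
        rw [h1]
        exact Submodule.norm_starProjection_apply_le _ _
      have h3 : ‖u g‖ ≤ ‖(u : G →L[ℂ] EuclideanSpace ℂ (Fin m))‖ * ‖g‖ :=
        (u : G →L[ℂ] EuclideanSpace ℂ (Fin m)).le_opNorm _
      calc a * ‖R f‖ ≤ a * (‖(u : G →L[ℂ] EuclideanSpace ℂ (Fin m))‖ * ‖g‖) := by
            gcongr
            exact h2.trans h3
        _ = (‖(u : G →L[ℂ] EuclideanSpace ℂ (Fin m))‖ * a) * ‖g‖ := by ring
        _ ≤ C * (2 * ‖f‖) := by
            have h4 : 0 ≤ C := le_trans (by positivity) hu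
            exact mul_le_mul hu hg2 (norm_nonneg _) h4
        _ = 2 * C * ‖f‖ := by ring
  · intro y z
    beta_reduce
    rw [map_add, ← mul_add]
    exact mul_le_mul_of_nonneg_left (norm_add_le _ _) ha0
  · intro c y
    simp only [map_smul, norm_smul]
    ring
  · intro y z
    simp only [map_add, map_sub]
    have := parallelogram_law_with_norm ℂ (R y) (R z)
    linear_combination a ^ 2 * this

theorem qu (h1 : S_EQ) : S_QU := by
  classical
  refine ⟨fun n => (5 ^ (2 * n)) ^ 2, ?_⟩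
  intro X _ _ n C hX Y _ F hF hn
  have : FiniteDimensional ℂ F := hF
  obtain ⟨s, hs1, hs2⟩ := sepnet F
  have hs3 : s.card ≤ 5 ^ (2 * n) := by
    refine hs1.trans (Nat.pow_le_pow_right (by norm_num) ?_)
    rw [finrank_real_of_complex]
    omega
  -- the points of the net and their lifts
  let p : F × F → F := fun cd => (1 / 4 : ℂ) • ((2 : ℂ) • cd.1 + cd.2)
  have hlift : ∀ cd : F × F, ∃ t : X, (Submodule.Quotient.mk t : X ⧸ Y) = (p cd : X ⧸ Y) ∧
      ‖t‖ < ‖p cd‖ + 1 / 8 := fun cd =>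
    Submodule.Quotient.norm_mk_lt (p cd : X ⧸ Y) (by norm_num)
  choose t ht1 ht2 using hlift
  let T : Finset X := (s ×ˢ s).image t
  let G : Submodule ℂ X := Submodule.span ℂ (T : Set X)
  have hGf : FiniteDimensional ℂ G := FiniteDimensional.span_finset ℂ T
  have hGn : finrank ℂ G ≤ (5 ^ (2 * n)) ^ 2 := by
    refine (finrank_span_finset_le_card T).trans ?_
    refine Finset.card_image_le.trans ?_
    rw [Finset.card_product, sq]
    exact Nat.mul_le_mul hs3 hs3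
  obtain ⟨m, u, hu⟩ := hX G hGf hGn
  have hGF : ∀ x ∈ G, Y.mkQ x ∈ F := by
    intro x hx
    have h2 : G ≤ F.comap Y.mkQ := by
      refine Submodule.span_le.2 ?_
      intro y hy
      rw [Finset.mem_coe, Finset.mem_image] at hy
      obtain ⟨cd, _, rfl⟩ := hy
      change Y.mkQ (t cd) ∈ F
      rw [Submodule.mkQ_apply, ht1 cd]
      exact (p cd).2
    exact h2 hx
  let q : G →ₗ[ℂ] F := Y.mkQ.restrict hGF
  have hqv : ∀ g : G, ((q g : F) : X ⧸ Y) = Submodule.Quotient.mk (g : X) := fun g => rfl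
  have hq : ∀ g : G, ‖q g‖ ≤ ‖g‖ := by
    intro g
    change ‖((q g : F) : X ⧸ Y)‖ ≤ ‖(g : X)‖
    rw [hqv]
    exact Submodule.Quotient.norm_mk_le Y (g : X)
  -- approximation in the unit ball
  have happ0 : ∀ f : F, ‖f‖ ≤ 1 → ∃ g : G, ‖g‖ ≤ 11 / 8 ∧ ‖f - q g‖ ≤ 1 / 4 := by
    intro f hf
    have hn2 : ‖(2 : ℂ)‖ = 2 := by norm_num
    have hn4 : ‖(1 / 4 : ℂ)‖ = 1 / 4 := by norm_num
    obtain ⟨c, hc, hc1⟩ := hs2 ((2 : ℂ) • f) (by
      rw [norm_smul, hn2]; linarith)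
    obtain ⟨d, hd, hd1⟩ := hs2 ((2 : ℂ) • ((2 : ℂ) • f - c)) (by
      rw [norm_smul, hn2]; linarith)
    have hpf : ‖f - p (c, d)‖ ≤ 1 / 4 := by
      have h2 : f - p (c, d) = (1 / 4 : ℂ) • ((2 : ℂ) • ((2 : ℂ) • f - c) - d) := by
        change f - (1 / 4 : ℂ) • ((2 : ℂ) • c + d) = _
        module
      rw [h2, norm_smul, hn4]
      linarith
    have hmem : t (c, d) ∈ G := by
      apply Submodule.subset_span
      rw [Finset.mem_coe, Finset.mem_image]
      exact ⟨(c, d), Finset.mk_mem_product hc hd, rfl⟩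
    have hqt : q ⟨t (c, d), hmem⟩ = p (c, d) := by
      apply Subtype.ext
      rw [hqv]
      exact ht1 (c, d)
    refine ⟨⟨t (c, d), hmem⟩, ?_, ?_⟩
    · have h3 : ‖p (c, d)‖ ≤ 5 / 4 := by
        calc ‖p (c, d)‖ = ‖f - (f - p (c, d))‖ := by rw [sub_sub_cancel]
          _ ≤ ‖f‖ + ‖f - p (c, d)‖ := norm_sub_le _ _
          _ ≤ 5 / 4 := by linarith
      have h4 := ht2 (c, d)
      change ‖t (c, d)‖ ≤ 11 / 8
      linarith
    · rw [hqt]; exact hpf
  have happ : ∀ f : F, ∃ g : G, ‖g‖ ≤ 11 / 8 * ‖f‖ ∧ ‖f - q g‖ ≤ 1 / 4 * ‖f‖ := by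
    intro f
    rcases eq_or_ne f 0 with rfl | hf
    · exact ⟨0, by simp, by simp⟩
    · have hf0 : 0 < ‖f‖ := norm_pos_iff.2 hf
      have hfc : ((‖f‖ : ℝ) : ℂ) ≠ 0 := by exact_mod_cast hf0.ne'
      obtain ⟨g, hg1, hg2⟩ := happ0 (((‖f‖ : ℝ) : ℂ)⁻¹ • f) (by
        rw [norm_smul, norm_inv, Complex.norm_real, norm_norm, inv_mul_cancel₀ hf0.ne'])
      refine ⟨((‖f‖ : ℝ) : ℂ) • g, ?_, ?_⟩
      · rw [norm_smul, Complex.norm_real, norm_norm, mul_comm]
        exact mul_le_mul_of_nonneg_right hg1 hf0.le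
      · have h5 : f - q (((‖f‖ : ℝ) : ℂ) • g) =
            ((‖f‖ : ℝ) : ℂ) • ((((‖f‖ : ℝ) : ℂ)⁻¹ • f) - q g) := by
          rw [smul_sub, smul_inv_smul₀ hfc, map_smul]
        rw [h5, norm_smul, Complex.norm_real, norm_norm, mul_comm]
        exact mul_le_mul_of_nonneg_right hg2 hf0.le
  obtain ⟨N, hN1, hN2, hN3, hN4⟩ := hilb G F q hq (lift2 G F q happ) m u C hu
  have hC : 0 ≤ C := le_trans (by positivity) hu
  exact h1 (X ⧸ Y) F (2 * C) N hN1 hN2 hN3 hN4 (by linarith)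

end Pool.Agent.Helper79.LS
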